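import Mathlib

/-!
# A distinguishing two-colouring of Euclidean space
-/

set_option linter.style.haveILetI false

namespace Pool.Agent.X218.RN

/-- The points `0` and `(i + 1) e_i`. -/
noncomputable def pt (n : ℕ) : Option (Fin n) → EuclideanSpace ℝ (Fin n)
  | none => 0
  | some i => EuclideanSpace.single i ((i : ℝ) + 1)

/-- Sum of the squared distances. -/
noncomputable def Ns (n : ℕ) (x : EuclideanSpace ℝ (Fin n)) : ℝ :=
  ∑ o : Option (Fin n), dist x (pt n o) ^ 2

/-- the sum of the squared norms -/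
noncomputable def Ts (n : ℕ) : ℝ := ∑ i : Fin n, ((i : ℝ) + 1) ^ 2

theorem Ns_none (n : ℕ) : Ns n (pt n none) = Ts n := by
  unfold Ns Ts
  rw [Fintype.sum_option]
  simp [pt, sq_abs]

theorem Ns_some (n : ℕ) (i : Fin n) :
    Ns n (pt n (some i)) = ((n : ℝ) - 1) * ((i : ℝ) + 1) ^ 2 + Ts n := by
  unfold Ns Ts
  rw [Fintype.sum_option]
  have h1 : dist (pt n (some i)) (pt n none) ^ 2 = ((i : ℝ) + 1) ^ 2 := by
    simp [pt, sq_abs]
  have h2 : ∀ j : Fin n, dist (pt n (some i)) (pt n (some j)) ^ 2 =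
      ((i : ℝ) + 1) ^ 2 + ((j : ℝ) + 1) ^ 2 - (if j = i then 2 * ((i : ℝ) + 1) ^ 2 else 0) := by
    intro j
    rw [dist_eq_norm, @norm_sub_sq_real]
    by_cases hij : j = i
    · subst hij
      simp [pt, sq_abs]
      ring
    · simp [pt, sq_abs, EuclideanSpace.inner_single_left, hij, Ne.symm hij]
  rw [h1, Finset.sum_congr rfl (fun j _ => h2 j), Finset.sum_sub_distrib, Finset.sum_add_distrib]
  simp
  ring

theorem Ns_injective (n : ℕ) (hn : 2 ≤ n) : Function.Injective (fun o => Ns n (pt n o)) := by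
  have hn' : (0 : ℝ) < (n : ℝ) - 1 := by
    have : (2 : ℝ) ≤ n := by exact_mod_cast hn
    linarith
  intro o o' h
  rcases o with _ | i <;> rcases o' with _ | j
  · rfl
  · exfalso
    simp only [Ns_none, Ns_some] at h
    have : 0 < ((n : ℝ) - 1) * ((j : ℝ) + 1) ^ 2 := by positivity
    linarith
  · exfalso
    simp only [Ns_none, Ns_some] at h
    have : 0 < ((n : ℝ) - 1) * ((i : ℝ) + 1) ^ 2 := by positivity
    linarith
  · simp only [Ns_some] at h
    have h1 : ((n : ℝ) - 1) * ((i : ℝ) + 1) ^ 2 = ((n : ℝ) - 1) * ((j : ℝ) + 1) ^ 2 := by linarith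
    have h2 := mul_left_cancel₀ hn'.ne' h1
    have h3 : (i : ℝ) + 1 = (j : ℝ) + 1 := by
      have hi : (0 : ℝ) ≤ (i : ℝ) + 1 := by positivity
      have hj : (0 : ℝ) ≤ (j : ℝ) + 1 := by positivity
      exact (pow_left_inj₀ hi hj two_ne_zero).1 h2
    have h4 : (i : ℕ) = (j : ℕ) := by exact_mod_cast add_right_cancel h3
    rw [Fin.ext h4]

theorem rigid (n : ℕ) (hn : 2 ≤ n) (g : EuclideanSpace ℝ (Fin n) ≃ᵢ EuclideanSpace ℝ (Fin n))
    (hg : ∀ x, g x ∈ Set.range (pt n) ↔ x ∈ Set.range (pt n)) : ∀ x, g x = x := by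
  classical
  have h1 : ∀ o, ∃ o', pt n o' = g (pt n o) := fun o => (hg (pt n o)).2 ⟨o, rfl⟩
  choose σ hσ using h1
  have hpinj : Function.Injective (pt n) := fun o o' h => Ns_injective n hn (by
    show Ns n (pt n o) = Ns n (pt n o')
    rw [h])
  have hinj : Function.Injective σ := by
    intro o o' h
    apply hpinj
    apply g.injective
    rw [← hσ, ← hσ, h]
  have hbij : Function.Bijective σ := Finite.injective_iff_bijective.1 hinj
  have hN : ∀ x, Ns n (g x) = Ns n x := by
    intro x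
    unfold Ns
    rw [← (Equiv.ofBijective σ hbij).sum_comp]
    refine Finset.sum_congr rfl fun o _ => ?_
    show dist (g x) (pt n (σ o)) ^ 2 = _
    rw [hσ, g.isometry.dist_eq]
  have hfix : ∀ o, g (pt n o) = pt n o := by
    intro o
    have h2 : σ o = o := by
      apply Ns_injective n hn
      show Ns n (pt n (σ o)) = Ns n (pt n o)
      rw [hσ, hN]
    rw [← hσ, h2]
  have h0 : g 0 = 0 := hfix none
  let L := g.toRealLinearIsometryEquivOfMapZero h0
  have hL : ∀ x, L x = g x := fun x => rfl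
  have hb : ∀ i : Fin n, L (EuclideanSpace.single i (1 : ℝ)) = EuclideanSpace.single i (1 : ℝ) := by
    intro i
    have h3 : L (pt n (some i)) = pt n (some i) := hfix (some i)
    have h4 : pt n (some i) = ((i : ℝ) + 1) • EuclideanSpace.single i (1 : ℝ) := by
      ext j
      simp [pt]
    rw [h4, map_smul] at h3
    have h5 : ((i : ℝ) + 1) ≠ 0 := by positivity
    exact smul_right_injective _ h5 h3
  have hid : L.toLinearEquiv.toLinearMap = LinearMap.id := by
    refine (EuclideanSpace.basisFun (Fin n) ℝ).toBasis.ext fun i => ?_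
    simp only [OrthonormalBasis.coe_toBasis, EuclideanSpace.basisFun_apply, LinearMap.id_apply]
    exact hb i
  intro x
  have := LinearMap.congr_fun hid x
  exact this

end Pool.Agent.X218.RN
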