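import Mathlib

/-!
# Cocycle equations over free groups acting freely
-/

set_option linter.style.haveILetI false

namespace Pool.Agent.X218.RN

variable {ι X : Type} [MulAction (FreeGroup ι) X]

/-- The skew product permutation. -/
def skew (δ : ι → X → ZMod 2) (i : ι) : Equiv.Perm (X × ZMod 2) where
  toFun p := (FreeGroup.of i • p.1, p.2 + δ i p.1)
  invFun p := ((FreeGroup.of i)⁻¹ • p.1, p.2 - δ i ((FreeGroup.of i)⁻¹ • p.1))
  left_inv p := by ext <;> simp
  right_inv p := by ext <;> simp

/-- The skew product action. -/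
def skewHom (δ : ι → X → ZMod 2) : FreeGroup ι →* Equiv.Perm (X × ZMod 2) :=
  FreeGroup.lift (skew δ)

theorem skewHom_fst (δ : ι → X → ZMod 2) (w : FreeGroup ι) :
    ∀ p : X × ZMod 2, (skewHom δ w p).1 = w • p.1 := by
  induction w using FreeGroup.induction_on with
  | C1 => intro p; simp
  | of i => intro p; simp [skewHom, skew]
  | inv_of i ih =>
    intro p
    have h : skewHom δ (FreeGroup.of i)⁻¹ p = (skew δ i).symm p := by
      simp [skewHom]
    rw [h]
    rfl
  | mul v w hv hw =>
    intro p
    rw [map_mul, Equiv.Perm.mul_apply, hv, hw, mul_smul]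

theorem skewHom_fix (δ : ι → X → ZMod 2) (x : X) (hx : ∀ w : FreeGroup ι, w • x = x)
    (hδ : ∀ i, δ i x = 0) (w : FreeGroup ι) :
    ∀ b : ZMod 2, skewHom δ w (x, b) = (x, b) := by
  induction w using FreeGroup.induction_on with
  | C1 => intro p; simp
  | of i => intro b; simp [skewHom, skew, hx, hδ]
  | inv_of i ih =>
    intro b
    rw [map_inv, Equiv.Perm.inv_eq_iff_eq]
    exact (ih b).symm
  | mul v w hv hw =>
    intro p
    rw [map_mul, Equiv.Perm.mul_apply, hw, hv]

/-- Solution of the cocycle equation. -/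
theorem exists_solution (δ : ι → X → ZMod 2)
    (h : ∀ x : X, (∀ w : FreeGroup ι, w • x = x → w = 1) ∨
      ((∀ w : FreeGroup ι, w • x = x) ∧ ∀ i, δ i x = 0)) :
    ∃ c : X → ZMod 2, ∀ i x, c (FreeGroup.of i • x) = c x + δ i x := by
  classical
  let rep : X → X := fun x =>
    (Quotient.mk (MulAction.orbitRel (FreeGroup ι) X) x).out
  have hrep : ∀ x, ∃ w : FreeGroup ι, w • rep x = x := by
    intro x
    have h1 : (MulAction.orbitRel (FreeGroup ι) X).r
        ((Quotient.mk (MulAction.orbitRel (FreeGroup ι) X) x).out) x := Quotient.mk_out x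
    obtain ⟨w, hw⟩ := MulAction.mem_orbit_iff.1 (MulAction.orbitRel_apply.1 h1)
    refine ⟨w⁻¹, ?_⟩
    show w⁻¹ • (Quotient.mk (MulAction.orbitRel (FreeGroup ι) X) x).out = x
    rw [← hw, inv_smul_smul]
  have hreps : ∀ (w : FreeGroup ι) x, rep (w • x) = rep x := by
    intro w x
    have h1 : Quotient.mk (MulAction.orbitRel (FreeGroup ι) X) (w • x) =
        Quotient.mk (MulAction.orbitRel (FreeGroup ι) X) x :=
      Quotient.sound (MulAction.mem_orbit x w)
    show (Quotient.mk (MulAction.orbitRel (FreeGroup ι) X) (w • x)).out = _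
    rw [h1]
  choose W hW using hrep
  refine ⟨fun x => (skewHom δ (W x) (rep x, 0)).2, fun i x => ?_⟩
  show (skewHom δ (W (FreeGroup.of i • x)) (rep (FreeGroup.of i • x), 0)).2 =
    (skewHom δ (W x) (rep x, 0)).2 + δ i x
  rcases h (rep x) with hf | ⟨hf, hz⟩
  · have h1 : W (FreeGroup.of i • x) = FreeGroup.of i * W x := by
      have h2 := hW (FreeGroup.of i • x)
      rw [hreps] at h2
      have h3 : (FreeGroup.of i * W x) • rep x = FreeGroup.of i • x := by
        rw [mul_smul, hW]
      have h4 : ((FreeGroup.of i * W x)⁻¹ * W (FreeGroup.of i • x)) • rep x = rep x := by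
        rw [mul_smul, h2, ← h3, inv_smul_smul]
      have h5 := hf _ h4
      rw [inv_mul_eq_one] at h5
      exact h5.symm
    rw [hreps, h1, map_mul, Equiv.Perm.mul_apply]
    have h6 : (skewHom δ (W x) (rep x, 0)).1 = x := by
      rw [skewHom_fst]
      exact hW x
    have h7 : skewHom δ (FreeGroup.of i) = skew δ i := by simp [skewHom]
    rw [h7]
    show (skewHom δ (W x) (rep x, 0)).2 + δ i (skewHom δ (W x) (rep x, 0)).1 = _
    rw [h6]
  · have hx : rep x = x := by
      have h8 := hW x
      rw [hf] at h8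
      exact h8
    rw [hreps, skewHom_fix δ _ hf hz, skewHom_fix δ _ hf hz]
    have : δ i x = 0 := by rw [← hx]; exact hz i
    rw [this, add_zero]

end Pool.Agent.X218.RN
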