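import Mathlib
import Pool.Agent.X186.HC.Free
import Pool.Agent.X269.Quat

/-!
# Free groups of rank continuum in the unit quaternions
-/

set_option linter.style.haveILetI false

open Quaternion Cardinal

namespace Pool.Agent.X218.RN

/-! ### the free group of countable rank in the free group of rank two -/

/-- the shift of the generators -/
noncomputable def sh : MulAut (FreeGroup ℤ) := FreeGroup.freeGroupCongr (Equiv.addRight 1)

/-- the action of `ℤ` -/
noncomputable def ph : Multiplicative ℤ →* MulAut (FreeGroup ℤ) := zpowersHom _ sh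

theorem ph_of (i : ℕ) : ph (Multiplicative.ofAdd (i : ℤ)) (FreeGroup.of 0) = FreeGroup.of (i : ℤ) := by
  have h : ∀ i : ℕ, (sh ^ i) (FreeGroup.of 0) = FreeGroup.of (i : ℤ) := by
    intro i
    induction i with
    | zero => rfl
    | succ i ih =>
      rw [pow_succ', MulAut.mul_apply, ih]
      simp [sh]
  rw [← h i]
  simp [ph, zpowersHom_apply]

/-- conjugates `a ^ i * b * a ^ (-i)` -/
noncomputable def emb : FreeGroup ℕ →* FreeGroup (Fin 2) :=
  FreeGroup.lift fun i => FreeGroup.of 0 ^ i * FreeGroup.of 1 * (FreeGroup.of 0 ^ i)⁻¹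

/-- the map to the semidirect product -/
noncomputable def tt : FreeGroup (Fin 2) →* (FreeGroup ℤ ⋊[ph] Multiplicative ℤ) :=
  FreeGroup.lift fun i =>
    if i = 0 then SemidirectProduct.inr (Multiplicative.ofAdd 1)
    else SemidirectProduct.inl (FreeGroup.of 0)

theorem tt_emb (w : FreeGroup ℕ) :
    tt (emb w) = SemidirectProduct.inl (FreeGroup.map (fun i : ℕ => (i : ℤ)) w) := by
  have h : tt.comp emb =
      (SemidirectProduct.inl (φ := ph)).comp (FreeGroup.map (fun i : ℕ => (i : ℤ))) := by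
    apply FreeGroup.ext_hom
    intro i
    have h1 : (Multiplicative.ofAdd (1 : ℤ)) ^ i = Multiplicative.ofAdd (i : ℤ) := by
      rw [← ofAdd_nsmul]; simp
    simp only [MonoidHom.comp_apply, emb, FreeGroup.lift_apply_of, map_mul, map_pow, map_inv, tt,
      FreeGroup.map.of, if_true, one_ne_zero, if_false]
    rw [← map_pow, h1, ← ph_of i, SemidirectProduct.inl_aut, map_inv]
  exact DFunLike.congr_fun h w

theorem emb_injective : Function.Injective emb := by
  intro w w' h
  have h1 := congrArg tt h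
  rw [tt_emb, tt_emb] at h1
  have h2 := SemidirectProduct.inl_injective h1
  have h3 := congrArg (FreeGroup.map Int.toNat) h2
  rw [FreeGroup.map.comp, FreeGroup.map.comp] at h3
  have h4 : (Int.toNat ∘ fun i : ℕ => (i : ℤ)) = id := by funext i; simp
  rw [h4, FreeGroup.map.id, FreeGroup.map.id] at h3
  exact h3

/-! ### words in generic quaternions -/

variable {ι : Type}

/-- the quaternion with parameters `v` -/
noncomputable def qv (v : ι × Fin 4 → ℝ) (i : ι) : ℍ[ℝ] := ⟨v (i, 0), v (i, 1), v (i, 2), v (i, 3)⟩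

/-- letters -/
noncomputable def letter (v : ι × Fin 4 → ℝ) (s : ι × Bool) : ℍ[ℝ] := if s.2 then qv v s.1 else star (qv v s.1)

/-- products of letters -/
noncomputable def word (v : ι × Fin 4 → ℝ) (L : List (ι × Bool)) : ℍ[ℝ] := (L.map (letter v)).prod

open MvPolynomial in
theorem word_poly (L : List (ι × Bool)) : ∃ A B C D : MvPolynomial (ι × Fin 4) ℚ,
    ∀ v : ι × Fin 4 → ℝ, word v L = ⟨aeval v A, aeval v B, aeval v C, aeval v D⟩ := by
  induction L with
  | nil =>
    refine ⟨1, 0, 0, 0, fun v => ?_⟩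
    ext <;> simp [word]
  | cons s L ih =>
    obtain ⟨A, B, C, D, h⟩ := ih
    obtain ⟨i, b⟩ := s
    have hw : ∀ v, word v ((i, b) :: L) = letter v (i, b) * word v L := fun v => by simp [word]
    cases b
    · refine ⟨X (i, 0) * A + X (i, 1) * B + X (i, 2) * C + X (i, 3) * D,
        X (i, 0) * B - X (i, 1) * A - X (i, 2) * D + X (i, 3) * C,
        X (i, 0) * C + X (i, 1) * D - X (i, 2) * A - X (i, 3) * B,
        X (i, 0) * D - X (i, 1) * C + X (i, 2) * B - X (i, 3) * A, fun v => ?_⟩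
      rw [hw, h v]
      ext <;> simp [letter, qv] <;> ring
    · refine ⟨X (i, 0) * A - X (i, 1) * B - X (i, 2) * C - X (i, 3) * D,
        X (i, 0) * B + X (i, 1) * A + X (i, 2) * D - X (i, 3) * C,
        X (i, 0) * C - X (i, 1) * D + X (i, 2) * A + X (i, 3) * B,
        X (i, 0) * D + X (i, 1) * C - X (i, 2) * B + X (i, 3) * A, fun v => ?_⟩
      rw [hw, h v]
      ext <;> simp [letter, qv] <;> ring

/-- If a homomorphism sends the generators to multiples of the generic quaternions, then it sends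
words to multiples of words. -/
theorem word_hom (v : ι × Fin 4 → ℝ) (Ψ : FreeGroup ι →* unitary ℍ[ℝ]) (r : ι → ℝ)
    (hr : ∀ i, r i ≠ 0) (h : ∀ i, qv v i = (r i) • ((Ψ (FreeGroup.of i) : unitary ℍ[ℝ]) : ℍ[ℝ]))
    (L : List (ι × Bool)) :
    ∃ c : ℝ, c ≠ 0 ∧ word v L = c • ((Ψ (FreeGroup.mk L) : unitary ℍ[ℝ]) : ℍ[ℝ]) := by
  induction L with
  | nil =>
    refine ⟨1, one_ne_zero, ?_⟩
    have h1 : (FreeGroup.mk [] : FreeGroup ι) = 1 := rfl
    rw [h1, map_one]
    simp [word]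
  | cons s L ih =>
    obtain ⟨c, hc, hL⟩ := ih
    obtain ⟨i, b⟩ := s
    have h1 : (FreeGroup.mk ((i, b) :: L) : FreeGroup ι) =
        FreeGroup.mk [(i, b)] * FreeGroup.mk L := rfl
    have hlet : letter v (i, b) =
        (r i) • ((Ψ (FreeGroup.mk [(i, b)]) : unitary ℍ[ℝ]) : ℍ[ℝ]) := by
      cases b
      · have h2 : (FreeGroup.mk [(i, false)] : FreeGroup ι) = (FreeGroup.of i)⁻¹ := rfl
        rw [h2, map_inv]
        simp only [letter, Bool.false_eq_true, if_false]
        rw [h i, Quaternion.star_smul]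
        rfl
      · exact h i
    refine ⟨r i * c, mul_ne_zero (hr i) hc, ?_⟩
    have hw : word v ((i, b) :: L) = letter v (i, b) * word v L := by simp [word]
    rw [hw, hlet, hL, h1, map_mul]
    simp only [Submonoid.coe_mul, smul_mul_smul_comm]

/-- imaginary part zero -/
def Re (q : ℍ[ℝ]) : Prop := q.imI = 0 ∧ q.imJ = 0 ∧ q.imK = 0

theorem Re_smul {c : ℝ} (hc : c ≠ 0) (q : ℍ[ℝ]) : Re (c • q) ↔ Re q := by
  simp [Re, hc]

/-- There is a homomorphism of the free group of rank at most continuum to the unit quaternions,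
no nontrivial element of which is mapped to a real quaternion. -/
theorem exists_free (ι : Type) (hι : #ι ≤ 𝔠) :
    ∃ Ψ : FreeGroup ι →* unitary ℍ[ℝ], ∀ w, Re ((Ψ w : unitary ℍ[ℝ]) : ℍ[ℝ]) → w = 1 := by
  classical
  obtain ⟨t, ht⟩ := Pool.Agent.X186.HC.exists_algInd (ι × Fin 4) (by
    rw [Cardinal.mk_prod, Cardinal.lift_id, Cardinal.lift_id]
    exact (mul_le_mul' hι (Cardinal.mk_le_aleph0.trans
      Cardinal.aleph0_le_continuum)).trans (by rw [Cardinal.continuum_mul_self]))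
  -- norms
  let r : ι → ℝ := fun i => ‖qv t i‖
  have hr : ∀ i, r i ≠ 0 := by
    intro i h
    have h1 : qv t i = 0 := norm_eq_zero.1 h
    have h2 : t (i, 0) = 0 := congrArg (fun q : ℍ[ℝ] => q.re) h1
    exact (ht.ne_zero (i, 0)) h2
  have hmem : ∀ i, (r i)⁻¹ • qv t i ∈ unitary ℍ[ℝ] := by
    intro i
    have h1 : ‖(r i)⁻¹ • qv t i‖ = 1 := by
      rw [norm_smul, norm_inv, Real.norm_of_nonneg (norm_nonneg _)]
      exact inv_mul_cancel₀ (hr i)
    have h2 : ∀ q : ℍ[ℝ], ‖q‖ = 1 → q ∈ unitary ℍ[ℝ] := by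
      intro q hq
      have h3 : Quaternion.normSq q = 1 := by
        rw [Quaternion.normSq_eq_norm_mul_self, hq, one_mul]
      rw [Unitary.mem_iff]
      constructor
      · rw [Quaternion.star_mul_self, h3]; simp
      · rw [Quaternion.self_mul_star, h3]; simp
    exact h2 _ h1
  let Ψ : FreeGroup ι →* unitary ℍ[ℝ] := FreeGroup.lift fun i => ⟨(r i)⁻¹ • qv t i, hmem i⟩
  refine ⟨Ψ, fun w hw => ?_⟩
  by_contra hne
  obtain ⟨n, hn⟩ := Pool.Agent.X186.HC.exists_map_ne w hne
  obtain ⟨A, B, C, D, hp⟩ := word_poly w.toWord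
  obtain ⟨c, hc, h1⟩ := word_hom t Ψ r hr (fun i => by
    simp only [Ψ, FreeGroup.lift_apply_of]
    rw [smul_smul, mul_inv_cancel₀ (hr i), one_smul]) w.toWord
  rw [FreeGroup.mk_toWord] at h1
  have h2 : Re (word t w.toWord) := by
    rw [h1, Re_smul hc]
    exact hw
  rw [hp t] at h2
  have hz : ∀ P : MvPolynomial (ι × Fin 4) ℚ, MvPolynomial.aeval t P = 0 → P = 0 := by
    intro P hP
    exact ht (by rw [hP, map_zero])
  have hB := hz B h2.1
  have hC := hz C h2.2.1
  have hD := hz D h2.2.2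
  -- specialisation
  let Φ : FreeGroup ι →* unitary ℍ[ℝ] :=
    (Pool.Agent.X269.Quat.P.comp emb).comp (FreeGroup.map n)
  let v : ι × Fin 4 → ℝ := fun p =>
    ![((Φ (FreeGroup.of p.1) : unitary ℍ[ℝ]) : ℍ[ℝ]).re,
      ((Φ (FreeGroup.of p.1) : unitary ℍ[ℝ]) : ℍ[ℝ]).imI,
      ((Φ (FreeGroup.of p.1) : unitary ℍ[ℝ]) : ℍ[ℝ]).imJ,
      ((Φ (FreeGroup.of p.1) : unitary ℍ[ℝ]) : ℍ[ℝ]).imK] p.2
  obtain ⟨c', hc', h3⟩ := word_hom v Φ (fun _ => 1) (fun _ => one_ne_zero) (fun i => by
    rw [one_smul]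
    ext <;> simp [qv, v]) w.toWord
  rw [FreeGroup.mk_toWord] at h3
  have h4 : Re ((Φ w : unitary ℍ[ℝ]) : ℍ[ℝ]) := by
    rw [← Re_smul hc', ← h3, hp v, hB, hC, hD]
    refine ⟨?_, ?_, ?_⟩ <;> simp
  have h5 := Pool.Agent.X269.Quat.P_real (emb (FreeGroup.map n w)) h4.1 h4.2.1 h4.2.2
  exact hn (emb_injective (by rw [h5, map_one]))

end Pool.Agent.X218.RN
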