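import Mathlib
import Pool.Agent.X218.RN.Quat
import Pool.Agent.X218.RN.Cocycle

/-!
# Colourings of Euclidean space that cannot be repaired
-/

set_option linter.style.haveILetI false

open Quaternion Cardinal

namespace Pool.Agent.X218.RN

/-- `ℍ × ℝ^m` with the euclidean metric. -/
abbrev W (m : ℕ) : Type := WithLp 2 (ℍ[ℝ] × EuclideanSpace ℝ (Fin m))

/-- Left multiplication by a unit quaternion in the first factor. -/
noncomputable def rot {m : ℕ} (u : unitary ℍ[ℝ]) (p : W m) : W m :=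
  WithLp.toLp 2 ((u : ℍ[ℝ]) * p.fst, p.snd)

theorem rot_one {m : ℕ} (p : W m) : rot 1 p = p := by
  unfold rot
  simp
  rfl

theorem rot_mul {m : ℕ} (u v : unitary ℍ[ℝ]) (p : W m) : rot (u * v) p = rot u (rot v p) := by
  unfold rot
  simp [mul_assoc]

theorem norm_unit (u : unitary ℍ[ℝ]) : ‖(u : ℍ[ℝ])‖ = 1 := by
  have h1 := (Unitary.mem_iff.1 u.2).1
  have h2 : ‖star (u : ℍ[ℝ]) * (u : ℍ[ℝ])‖ = 1 := by rw [h1]; simp
  rw [norm_mul, norm_star] at h2
  have h3 : 0 ≤ ‖(u : ℍ[ℝ])‖ := norm_nonneg _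
  nlinarith

theorem rot_dist {m : ℕ} (u : unitary ℍ[ℝ]) (p q : W m) : dist (rot u p) (rot u q) = dist p q := by
  rw [WithLp.prod_dist_eq_of_L2, WithLp.prod_dist_eq_of_L2]
  have h1 : dist (rot u p).fst (rot u q).fst = dist p.fst q.fst := by
    show dist ((u : ℍ[ℝ]) * p.fst) ((u : ℍ[ℝ]) * q.fst) = _
    rw [dist_eq_norm, dist_eq_norm, ← mul_sub, norm_mul, norm_unit, one_mul]
  rw [h1]
  rfl

/-- The key statement: a colouring all of whose finite modifications have nontrivial symmetries. -/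
theorem bad_colouring {X : Type} [MetricSpace X] {m : ℕ} (Θ : X ≃ᵢ W m) (hX : #X ≤ 𝔠) :
    ∃ c : X → ZMod 2, ∀ c' : X → ZMod 2, {x | c' x ≠ c x}.Finite →
      ∃ g : X ≃ᵢ X, (∀ x, c' (g x) = c' x) ∧ ∃ x, g x ≠ x := by
  classical
  have hF : #(Finset X) ≤ 𝔠 := by
    rcases finite_or_infinite X with h | h
    · exact (Cardinal.mk_le_aleph0).trans Cardinal.aleph0_le_continuum
    · rw [Cardinal.mk_finset_of_infinite]
      exact hX
  obtain ⟨Ψ, hΨ⟩ := exists_free (Finset X) hF
  letI act : MulAction (FreeGroup (Finset X)) X :=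
    { smul := fun w x => Θ.symm (rot (Ψ w) (Θ x))
      one_smul := fun x => by
        show Θ.symm (rot (Ψ 1) (Θ x)) = x
        rw [map_one, rot_one, Θ.symm_apply_apply]
      mul_smul := fun v w x => by
        show Θ.symm (rot (Ψ (v * w)) (Θ x)) = Θ.symm (rot (Ψ v) (Θ (Θ.symm (rot (Ψ w) (Θ x)))))
        rw [map_mul, rot_mul, Θ.apply_symm_apply] }
  have hsmul : ∀ (w : FreeGroup (Finset X)) (x : X), w • x = Θ.symm (rot (Ψ w) (Θ x)) :=
    fun _ _ => rfl
  have hfix : ∀ x : X, (Θ x).fst = 0 → ∀ w : FreeGroup (Finset X), w • x = x := by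
    intro x hx w
    rw [hsmul]
    have h1 : rot (Ψ w) (Θ x) = Θ x := by
      unfold rot
      rw [hx, mul_zero]
      refine WithLp.ofLp_injective 2 ?_
      refine Prod.ext ?_ rfl
      exact hx.symm
    rw [h1, Θ.symm_apply_apply]
  have hfree : ∀ x : X, (Θ x).fst ≠ 0 → ∀ w : FreeGroup (Finset X), w • x = x → w = 1 := by
    intro x hx w h
    have h1 : rot (Ψ w) (Θ x) = Θ x := by
      rw [hsmul] at h
      have h2 := congrArg Θ h
      rwa [Θ.apply_symm_apply] at h2
    have h2 : ((Ψ w : unitary ℍ[ℝ]) : ℍ[ℝ]) * (Θ x).fst = (Θ x).fst :=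
      congrArg (fun p : W m => p.fst) h1
    have h3 : ((Ψ w : unitary ℍ[ℝ]) : ℍ[ℝ]) = 1 := by
      have h4 : (((Ψ w : unitary ℍ[ℝ]) : ℍ[ℝ]) - 1) * (Θ x).fst = 0 := by
        rw [sub_mul, h2, one_mul, sub_self]
      rcases mul_eq_zero.1 h4 with h5 | h5
      · exact sub_eq_zero.1 h5
      · exact absurd h5 hx
    apply hΨ
    rw [h3]
    exact ⟨rfl, rfl, rfl⟩
  -- the cocycle
  let ind : Finset X → X → ZMod 2 := fun F x => if x ∈ F then 1 else 0
  let δ : Finset X → X → ZMod 2 := fun F x => ind F x + ind F (FreeGroup.of F • x)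
  have htwo : ∀ a : ZMod 2, a + a = 0 := fun a => CharTwo.add_self_eq_zero a
  obtain ⟨c, hc⟩ := exists_solution δ (fun x => by
    by_cases hx : (Θ x).fst = 0
    · right
      refine ⟨hfix x hx, fun F => ?_⟩
      show ind F x + ind F (FreeGroup.of F • x) = 0
      rw [hfix x hx]
      exact htwo _
    · left
      exact hfree x hx)
  refine ⟨c, fun c' hfin => ?_⟩
  set F : Finset X := hfin.toFinset with hFdef
  have hc' : ∀ x, c' x = c x + ind F x := by
    intro x
    by_cases h : c' x = c x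
    · have h1 : x ∉ F := by
        rw [hFdef, Set.Finite.mem_toFinset]
        exact fun h2 => h2 h
      simp only [ind, h1, if_false, add_zero]
      exact h
    · have h1 : x ∈ F := by
        rw [hFdef, Set.Finite.mem_toFinset]
        exact h
      simp only [ind, h1, if_true]
      have h3 : ∀ a b : ZMod 2, a ≠ b → a = b + 1 := by decide
      exact h3 _ _ h
  let g : X ≃ᵢ X :=
    { toFun := fun x => FreeGroup.of F • x
      invFun := fun x => (FreeGroup.of F)⁻¹ • x
      left_inv := fun x => inv_smul_smul _ _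
      right_inv := fun x => smul_inv_smul _ _
      isometry_toFun := by
        refine Isometry.of_dist_eq fun x y => ?_
        rw [hsmul, hsmul, Θ.symm.isometry.dist_eq, rot_dist, Θ.isometry.dist_eq] }
  refine ⟨g, fun x => ?_, Θ.symm (WithLp.toLp 2 (1, 0)), ?_⟩
  · show c' (FreeGroup.of F • x) = c' x
    rw [hc', hc', hc]
    show c x + (ind F x + ind F (FreeGroup.of F • x)) + ind F (FreeGroup.of F • x) = _
    rw [add_assoc, add_assoc, htwo, add_zero]
  · intro h
    have h1 := hfree (Θ.symm (WithLp.toLp 2 (1, 0))) (by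
      rw [Θ.apply_symm_apply]
      exact one_ne_zero) (FreeGroup.of F) h
    exact FreeGroup.of_ne_one F h1

end Pool.Agent.X218.RN
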